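import Pool.Agent.Y744.GK.Tau
import Pool.Agent.Y744.GK.Pos

/-!
Which of Newton's inequalities `c_j ^ 2 ≥ c_(j-1) c_(j+1)`, `1 ≤ j ≤ n - 1`, hold for the GKK
tau-matrices of order `n`: exactly the first one (`j = 1`) and the last one (`j = n - 1`), and these
two hold for all GKK matrices.  For every order `n ≥ 4` and every `j` with `2 ≤ j ≤ n - 2` the
quotient `c_(j-1) c_(j+1) / c_j ^ 2` is unbounded on the GKK tau-matrices of order `n`.
-/

set_option autoImplicit false

namespace Pool.Agent.Results.MP_a5d893_al.ExactIndices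

/-- The principal submatrix on the increasing index sequence f. -/
abbrev principal {n k : ℕ} (A : Matrix (Fin n) (Fin n) ℝ) (f : Fin k ↪o Fin n) :
    Matrix (Fin k) (Fin k) ℝ :=
  A.submatrix f f

/-- The minor with rows on the increasing index sequence f and columns on g. -/
noncomputable abbrev minor {n k : ℕ} (A : Matrix (Fin n) (Fin n) ℝ) (f g : Fin k ↪o Fin n) : ℝ :=
  (A.submatrix f g).det

/-- All principal minors are positive. -/
def IsPMatrix {n : ℕ} (A : Matrix (Fin n) (Fin n) ℝ) : Prop :=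
  ∀ (k : ℕ) (f : Fin k ↪o Fin n), 0 < minor A f f

/-- The index sequences f and g share all but one of their k entries. -/
def AlmostPrincipal {n k : ℕ} (f g : Fin k ↪o Fin n) : Prop :=
  (Finset.univ.image f ∩ Finset.univ.image g).card + 1 = k

/-- Weak sign symmetry. -/
def IsWeaklySignSymmetric {n : ℕ} (A : Matrix (Fin n) (Fin n) ℝ) : Prop :=
  ∀ (k : ℕ) (f g : Fin k ↪o Fin n), AlmostPrincipal f g → 0 ≤ minor A f g * minor A g f

/-- GKK matrices: weakly sign symmetric P-matrices. -/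
def IsGKK {n : ℕ} (A : Matrix (Fin n) (Fin n) ℝ) : Prop :=
  IsWeaklySignSymmetric A ∧ IsPMatrix A

/-- The least real eigenvalue, an extended real, equal to plus infinity if there is none. -/
noncomputable def leastReal {k : ℕ} (M : Matrix (Fin k) (Fin k) ℝ) : EReal :=
  sInf ((fun x : ℝ => (x : EReal)) '' spectrum ℝ M)

/-- Eigenvalue monotonicity for principal submatrices. -/
def IsOmega {n : ℕ} (A : Matrix (Fin n) (Fin n) ℝ) : Prop :=
  ∀ (k m : ℕ) (f : Fin k ↪o Fin n) (g : Fin m ↪o Fin n), 0 < m → Set.range g ⊆ Set.range f →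
    leastReal (principal A f) ≤ leastReal (principal A g) ∧ leastReal (principal A g) < ⊤

/-- Tau-matrices. -/
def IsTau {n : ℕ} (A : Matrix (Fin n) (Fin n) ℝ) : Prop :=
  IsOmega A ∧ 0 ≤ leastReal A

/-- The normalised sum of all principal minors of order j. -/
noncomputable def coeff {n : ℕ} (A : Matrix (Fin n) (Fin n) ℝ) (j : ℕ) : ℝ :=
  (∑ f : Fin j ↪o Fin n, minor A f f) / (n.choose j : ℝ)

open Pool.Agent.Y744.GK

lemma leastReal_le {k m : ℕ} (M : Matrix (Fin k) (Fin k) ℝ) (N : Matrix (Fin m) (Fin m) ℝ)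
    (h : ∀ x ∈ spectrum ℝ N, ∃ y ∈ spectrum ℝ M, y ≤ x) : leastReal M ≤ leastReal N := by
  unfold leastReal
  apply le_sInf
  rintro _ ⟨x, hx, rfl⟩
  obtain ⟨y, hy, hyx⟩ := h x hx
  exact le_trans (sInf_le (Set.mem_image_of_mem _ hy)) (EReal.coe_le_coe_iff.2 hyx)

lemma leastReal_lt_top {k : ℕ} (M : Matrix (Fin k) (Fin k) ℝ)
    (h : ∃ y, y ∈ spectrum ℝ M) : leastReal M < ⊤ := by
  obtain ⟨y, hy⟩ := h
  unfold leastReal
  exact lt_of_le_of_lt (sInf_le (Set.mem_image_of_mem _ hy)) (EReal.coe_lt_top y)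

lemma G_gkk (k : ℕ) (a c : ℝ) (ha : 1 < a) (hc : 0 < c) : IsGKK (G k a c) :=
  ⟨fun _ f g h => wss a c ha hc f g h, fun _ f => pmat a c ha hc f⟩

lemma G_tau (k : ℕ) (a c : ℝ) (ha : 1 < a) (hc : 0 < c) : IsTau (G k a c) := by
  refine ⟨?_, ?_⟩
  · intro p m f g hm hsub
    exact ⟨leastReal_le _ _ (fun x hx => spec_mono a c ha hc f g hm hsub x hx),
      leastReal_lt_top _ (spec_nonempty a c ha hc g hm)⟩
  · apply le_sInf
    rintro _ ⟨x, hx, rfl⟩
    rw [spec_G a c hc k] at hx
    exact EReal.coe_nonneg.2 (root_pos a c ha hc k x hx).le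

lemma coeff_mn {n : ℕ} (A : Matrix (Fin n) (Fin n) ℝ) (j : ℕ) :
    coeff A j = (∑ s ∈ Finset.powersetCard j (Finset.univ : Finset (Fin n)), mn A s) /
      (n.choose j : ℝ) := by
  unfold coeff
  rw [← sum_emb (mn A), Finset.sum_congr rfl (fun f _ => minor_mn A f)]

lemma mn_pos {n : ℕ} (A : Matrix (Fin n) (Fin n) ℝ) (h : IsPMatrix A) (s : Finset (Fin n)) :
    0 < mn A s := by
  have h1 := h s.card (s.orderEmbOfFin rfl)
  rw [minor, minor_mn] at h1
  have h2 : Finset.univ.image (s.orderEmbOfFin rfl) = s := by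
    apply Finset.coe_injective
    rw [Finset.coe_image, Finset.coe_univ, Set.image_univ, Finset.range_orderEmbOfFin]
  rwa [h2] at h1

lemma mn_empty {n : ℕ} (A : Matrix (Fin n) (Fin n) ℝ) : mn A ∅ = 1 := by
  unfold mn
  exact Matrix.det_isEmpty

lemma mn_single {n : ℕ} (A : Matrix (Fin n) (Fin n) ℝ) (i : Fin n) : mn A {i} = A i i := by
  rw [← mn_of A (fun _ : Fin 1 => i) (fun x y _ => Subsingleton.elim x y) {i} (by
    rw [Set.range_const, Finset.coe_singleton])]
  rw [Matrix.det_fin_one]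
  rfl

lemma coeff_zero {n : ℕ} (A : Matrix (Fin n) (Fin n) ℝ) : coeff A 0 = 1 := by
  rw [coeff_mn, Finset.powersetCard_zero, Finset.sum_singleton, mn_empty]
  simp

lemma coeff_one {n : ℕ} (A : Matrix (Fin n) (Fin n) ℝ) : coeff A 1 = (∑ i, A i i) / n := by
  rw [coeff_mn, Finset.powersetCard_one, Finset.sum_map, Nat.choose_one_right]
  congr 1
  exact Finset.sum_congr rfl (fun i _ => mn_single A i)

/-- the first inequality -/
lemma first {n : ℕ} (hn : 2 ≤ n) (A : Matrix (Fin n) (Fin n) ℝ) (hA : IsGKK A) :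
    coeff A 0 * coeff A 2 ≤ coeff A 1 ^ 2 := by
  rw [coeff_zero, one_mul, coeff_one]
  unfold coeff
  apply newton_one n hn (fun i => A i i)
  rw [← sum_emb (fun s => ∏ i ∈ s, A i i)]
  apply Finset.sum_le_sum
  intro f _
  have h01 : f 0 ≠ f 1 := fun h => by simpa using f.injective h
  have h1 : Finset.univ.image f = {f 0, f 1} := by
    ext x
    simp only [Finset.mem_image, Finset.mem_univ, true_and, Fin.exists_fin_two, Finset.mem_insert,
      Finset.mem_singleton]
    constructor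
    · rintro (h | h)
      · exact Or.inl h.symm
      · exact Or.inr h.symm
    · rintro (h | h)
      · exact Or.inl h.symm
      · exact Or.inr h.symm
  rw [h1, Finset.prod_pair h01, minor, Matrix.det_fin_two]
  simp only [Matrix.submatrix_apply]
  have hw := hA.1 1 (OrderEmbedding.ofStrictMono (fun _ : Fin 1 => f 0) (Subsingleton.strictMono _))
    (OrderEmbedding.ofStrictMono (fun _ : Fin 1 => f 1) (Subsingleton.strictMono _)) (by
      unfold AlmostPrincipal
      rw [add_eq_right, Finset.card_eq_zero, ← Finset.disjoint_iff_inter_eq_empty,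
        Finset.disjoint_left]
      intro x hx hx'
      obtain ⟨i, -, hi⟩ := Finset.mem_image.1 hx
      obtain ⟨j, -, hj⟩ := Finset.mem_image.1 hx'
      exact h01 (hi.trans hj.symm))
  rw [minor, minor, Matrix.det_fin_one, Matrix.det_fin_one] at hw
  have hw' : 0 ≤ A (f 0) (f 1) * A (f 1) (f 0) := hw
  linarith

/-- the last inequality -/
lemma final {n : ℕ} (hn : 2 ≤ n) (A : Matrix (Fin n) (Fin n) ℝ) (hA : IsGKK A) :
    coeff A (n - 2) * coeff A n ≤ coeff A (n - 1) ^ 2 := by
  have hP := mn_pos A hA.2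
  have hk := key A hP (fun k f g h => hA.1 k f g h)
  have h0 : coeff A n = mn A Finset.univ := by
    have : Finset.powersetCard n (Finset.univ : Finset (Fin n)) = {Finset.univ} := by
      have h := Finset.powersetCard_self (Finset.univ : Finset (Fin n))
      rwa [Finset.card_fin] at h
    rw [coeff_mn, this, Finset.sum_singleton, Nat.choose_self]
    simp
  have h1 : coeff A (n - 1) = (∑ i, mn A {i}ᶜ) / n := by
    rw [coeff_mn, sum_compl (by omega) (mn A), Finset.powersetCard_one, Finset.sum_map,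
      Nat.choose_symm (by omega), Nat.choose_one_right]
    rfl
  have h2 : coeff A (n - 2) = (∑ t ∈ Finset.powersetCard 2 (Finset.univ : Finset (Fin n)),
      mn A tᶜ) / (n.choose 2 : ℝ) := by
    rw [coeff_mn, sum_compl hn (mn A), Nat.choose_symm hn]
  have h3 := newton_one n hn (fun i => mn A {i}ᶜ)
    (∑ t ∈ Finset.powersetCard 2 (Finset.univ : Finset (Fin n)), mn A Finset.univ * mn A tᶜ) (by
      apply Finset.sum_le_sum
      intro t ht
      obtain ⟨i, j, hij, rfl⟩ := Finset.card_eq_two.1 (Finset.mem_powersetCard.1 ht).2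
      rw [Finset.prod_pair hij]
      exact hk i j hij)
  rw [← Finset.mul_sum] at h3
  rw [h0, h1, h2]
  calc _ = mn A Finset.univ * (∑ t ∈ Finset.powersetCard 2 (Finset.univ : Finset (Fin n)),
      mn A tᶜ) / (n.choose 2 : ℝ) := by ring
    _ ≤ _ := h3

/-- For `1 ≤ j ≤ n - 1`: if `j = 1` or `j = n - 1`, then the `j`-th Newton inequality holds for all
GKK matrices of order `n`; otherwise it fails for some GKK tau-matrices of order `n`, and the
quotient `c_(j-1) c_(j+1) / c_j ^ 2` takes arbitrarily large values on them. -/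
theorem result (n j : ℕ) (h1 : 1 ≤ j) (h2 : j ≤ n - 1) :
    (j = 1 ∨ j = n - 1 → ∀ A : Matrix (Fin n) (Fin n) ℝ, IsGKK A →
      coeff A (j - 1) * coeff A (j + 1) ≤ coeff A j ^ 2) ∧
    (j ≠ 1 → j ≠ n - 1 → ∀ C : ℝ, ∃ A : Matrix (Fin n) (Fin n) ℝ, IsGKK A ∧ IsTau A ∧
      C * coeff A j ^ 2 < coeff A (j - 1) * coeff A (j + 1)) := by
  refine ⟨?_, ?_⟩
  · rintro (rfl | rfl) A hA
    · exact first (by omega) A hA
    · have e1 : n - 1 - 1 = n - 2 := by omega
      have e2 : n - 1 + 1 = n := by omega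
      rw [e1, e2]
      exact final (by omega) A hA
  · intro h3 h4 C
    obtain ⟨k, rfl⟩ : ∃ k, n = k + 1 := ⟨n - 1, by omega⟩
    set a : ℝ := max 1 (C * ((k : ℝ) + 1) ^ 2) + 1 with ha
    have ha1 : 1 < a := by
      have := le_max_left (1 : ℝ) (C * ((k : ℝ) + 1) ^ 2)
      linarith
    have ha2 : C * ((k : ℝ) + 1) ^ 2 < a := by
      have := le_max_right (1 : ℝ) (C * ((k : ℝ) + 1) ^ 2)
      linarith
    have hc : 0 < a ^ j := by positivity
    refine ⟨G k a (a ^ j), G_gkk k a _ ha1 hc, G_tau k a _ ha1 hc, ?_⟩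
    exact newton_viol k j (by omega) (by omega) C a ha1 ha2

end Pool.Agent.Results.MP_a5d893_al.ExactIndices
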